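import Pool.Agent.Shared.LTree

/-!
A winning strategy of player II in the strong countable fan tightness game in `L` yields one in
`V`; no hypothesis beyond ZFC is needed.
-/

universe u

namespace Pool.Agent.Results.MP_cb406a_lc.FanTightness

open ZFSet Pool.Agent.Shared.LDefs

/-- The finite sequence `⟨A k : k < n⟩`, as a set of pairs with von Neumann numerals. -/
noncomputable def seqSet (A : ℕ → ZFSet.{u}) (n : ℕ) : ZFSet.{u} :=
  range fun k : Fin n => pair ((k : ℕ) : Ordinal.{u}).toZFSet (A k)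

/-- The infinite sequence `⟨A k : k < ω⟩`, as a set of pairs with von Neumann numerals. -/
noncomputable def runSet (A : ℕ → ZFSet.{u}) : ZFSet.{u} :=
  range fun k : ℕ => pair (k : Ordinal.{u}).toZFSet (A k)

/-- `τ` is a topology on `X` in the sense of the class `M`. -/
def IsTop (M : Set ZFSet.{u}) (X τ : ZFSet.{u}) : Prop :=
  (∀ U ∈ τ, U ⊆ X) ∧ ∅ ∈ τ ∧ X ∈ τ ∧ (∀ U ∈ τ, ∀ W ∈ τ, U ∩ W ∈ τ) ∧
    ∀ S ∈ M, S ⊆ τ → ⋃₀ S ∈ τ

/-- The topology on `X` generated by the basis `τ`. -/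
def genTop (X τ : ZFSet.{u}) : ZFSet.{u} :=
  X.powerset.sep fun U => ∀ y ∈ U, ∃ W ∈ τ, y ∈ W ∧ W ⊆ U

/-- `x` is in the closure of `A` for the topology `τ`. -/
def InCl (τ x A : ZFSet.{u}) : Prop := ∀ U ∈ τ, x ∈ U → ∃ y ∈ U, y ∈ A

/-- `A` is a legal move of player I in the game played in the class `M`. -/
def Legal (M : Set ZFSet.{u}) (X τ x A : ZFSet.{u}) : Prop := A ∈ M ∧ A ⊆ X ∧ InCl τ x A

/-- Player II has a winning strategy in the strong countable fan tightness game at `x`, as played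
in the class `M`: the strategy, the moves of player I and the runs all lie in `M`. -/
def IIWins (M : Set ZFSet.{u}) (X τ x : ZFSet.{u}) : Prop :=
  ∃ f ∈ M,
    (∀ (A : ℕ → ZFSet.{u}) (n : ℕ), (∀ k ≤ n, Legal M X τ x (A k)) →
      ∃ y ∈ A n, pair (seqSet A (n + 1)) y ∈ f ∧ ∀ z, pair (seqSet A (n + 1)) z ∈ f → z = y) ∧
    ∀ A y : ℕ → ZFSet.{u}, runSet A ∈ M → (∀ k, Legal M X τ x (A k)) →
      (∀ n, pair (seqSet A (n + 1)) (y n) ∈ f) → InCl τ x (range y)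

lemma mem_seqSet {A : ℕ → ZFSet.{u}} {n : ℕ} {p : ZFSet.{u}} :
    p ∈ seqSet A n ↔ ∃ k < n, p = pair (nat k) (A k) := by
  rw [seqSet, mem_range]
  exact ⟨fun ⟨k, h⟩ => ⟨k, k.2, h.symm⟩, fun ⟨k, hk, h⟩ => ⟨⟨k, hk⟩, h.symm⟩⟩

lemma seqSet_zero (A : ℕ → ZFSet.{u}) : seqSet A 0 = ∅ := by
  ext; simp [mem_seqSet]

lemma seqSet_succ (A : ℕ → ZFSet.{u}) (n : ℕ) :
    seqSet A (n + 1) = insert (pair (nat n) (A n)) (seqSet A n) := by
  ext p
  simp only [mem_seqSet, mem_insert_iff]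
  constructor
  · rintro ⟨k, hk, rfl⟩
    rcases Nat.lt_succ_iff_lt_or_eq.1 hk with h | rfl
    exacts [Or.inr ⟨k, h, rfl⟩, Or.inl rfl]
  · rintro (rfl | ⟨k, hk, rfl⟩)
    exacts [⟨n, by omega, rfl⟩, ⟨k, by omega, rfl⟩]

lemma seqSet_congr {A B : ℕ → ZFSet.{u}} {n : ℕ} (h : ∀ k < n, A k = B k) :
    seqSet A n = seqSet B n := by
  ext p
  simp only [mem_seqSet]
  exact exists_congr fun k => and_congr_right fun hk => by rw [h k hk]

lemma img_fst_seqSet (A : ℕ → ZFSet.{u}) (n : ℕ) : img fst (seqSet A n) = nat n := by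
  ext p
  simp only [mem_img, mem_seqSet, mem_nat]
  constructor
  · rintro ⟨_, ⟨k, hk, rfl⟩, rfl⟩
    exact ⟨k, hk, by simp⟩
  · rintro ⟨k, hk, rfl⟩
    exact ⟨_, ⟨k, hk, rfl⟩, by simp⟩

lemma seqSet_inj {A B : ℕ → ZFSet.{u}} {m n : ℕ} (h : seqSet A m = seqSet B n) :
    m = n ∧ ∀ k < m, A k = B k := by
  refine ⟨nat_inj.1 (by rw [← img_fst_seqSet A, h, img_fst_seqSet]), fun k hk => ?_⟩
  obtain ⟨j, -, e⟩ := mem_seqSet.1 (h ▸ mem_seqSet.2 ⟨k, hk, rfl⟩ : pair (nat k) (A k) ∈ seqSet B n)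
  obtain ⟨h1, h2⟩ := pair_inj.1 e
  rw [h2, nat_inj.1 h1]

lemma seqSet_mem_L {A : ℕ → ZFSet.{u}} : ∀ {n : ℕ}, (∀ k < n, A k ∈ L) → seqSet A n ∈ L
  | 0, _ => seqSet_zero A ▸ empty_mem_L
  | n + 1, h => by
    rw [seqSet_succ]
    exact Tm.closed (((Tm.const (nat_mem_L n)).pair (.const (h n (by omega)))).insert
      (.const (seqSet_mem_L fun k hk => h k (by omega))))

lemma dfn_InCl {τ x : ZFSet.{u}} (hτ : τ ∈ L) (hx : x ∈ L) {t : E.{u} → ZFSet.{u}} (ht : Tm t) :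
    Dfn (fun v => InCl τ x (t v)) :=
  Dfn.ball (P := fun U v => x ∈ U → ∃ y ∈ U, y ∈ t v) (.const hτ)
    ((Dfn.mem' (.const hx) (.var 0)).imp
      (Dfn.bex (P := fun y w => y ∈ t (tl w)) (.var 0) (Dfn.mem' (.var 0) ht.tl.tl)))

/-- The extension of a position by one move. -/
noncomputable def ext (s A : ZFSet.{u}) : ZFSet.{u} := insert (pair (img fst s) A) s

lemma ext_seqSet (A : ℕ → ZFSet.{u}) (n : ℕ) : ext (seqSet A n) (A n) = seqSet A (n + 1) := by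
  rw [ext, img_fst_seqSet, seqSet_succ]

lemma tm_ext {s t : E.{u} → ZFSet.{u}} (hs : Tm s) (ht : Tm t) : Tm (fun v => ext (s v) (t v)) :=
  ((Tm.img (F := fun y _ => fst y) hs (Tm.var 0).fst).pair ht).insert hs

section

variable {X τ x f : ZFSet.{u}} (hX : X ∈ L) (hτ : τ ∈ L) (hx : x ∈ L) (hf : f ∈ L)
  (hsub : ∀ U ∈ τ, U ⊆ X)
  (h1 : ∀ (A : ℕ → ZFSet.{u}) (n : ℕ), (∀ k ≤ n, Legal L X τ x (A k)) →
      ∃ y ∈ A n, pair (seqSet A (n + 1)) y ∈ f ∧ ∀ z, pair (seqSet A (n + 1)) z ∈ f → z = y)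

include hX hτ hx hf hsub h1 in
/-- The possible answers of the strategy at a position fill a neighbourhood of `x`. -/
lemma nbhd (A : ℕ → ZFSet.{u}) (n : ℕ) (hA : ∀ k < n, Legal L X τ x (A k)) :
    ∃ W ∈ τ, x ∈ W ∧ ∀ y ∈ W, ∃ C, Legal L X τ x C ∧ app f (ext (seqSet A n) C) = y := by
  have hs : seqSet A n ∈ L := seqSet_mem_L fun k hk => (hA k hk).1
  let C : ZFSet.{u} := X.sep fun y => ¬ ∃ C ∈ powL X, InCl τ x C ∧ app f (ext (seqSet A n) C) = y
  have hC : C ∈ L := Tm.closed (Tm.sep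
    (P := fun y _ => ¬ ∃ C ∈ powL X, InCl τ x C ∧ app f (ext (seqSet A n) C) = y) (.const hX)
    (Dfn.bex (P := fun C w => InCl τ x C ∧ app f (ext (seqSet A n) C) = w 0) (Tm.const hX).powL
      ((dfn_InCl hτ hx (.var 0)).and
        (Dfn.eq' ((Tm.const hf).app (tm_ext (.const hs) (.var 0))) (.var 1)))).not)
  have hCX : C ⊆ X := fun _ h => (mem_sep.1 h).1
  have hn : ¬ InCl τ x C := by
    intro hcl
    obtain ⟨y, hy, hy1, hy2⟩ := h1 (Function.update A n C) n (fun k hk => by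
      rcases hk.lt_or_eq with h | rfl
      · rw [Function.update_of_ne h.ne]; exact hA k h
      · rw [Function.update_self]; exact ⟨hC, hCX, hcl⟩)
    rw [Function.update_self] at hy
    refine (mem_sep.1 hy).2 ⟨C, mem_powL.2 ⟨hCX, hC⟩, hcl, ?_⟩
    rw [← app_eq hy1 hy2, ← ext_seqSet, Function.update_self,
      seqSet_congr (fun k hk => Function.update_of_ne hk.ne C A)]
  simp only [InCl, not_forall] at hn
  obtain ⟨W, hW, hxW, hn⟩ := hn
  refine ⟨W, hW, hxW, fun y hy => ?_⟩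
  by_contra hc
  refine hn ⟨y, hy, mem_sep.2 ⟨hsub W hW hy, fun ⟨D, hD, h2, h3⟩ => hc ⟨D, ⟨?_, ?_, h2⟩, h3⟩⟩⟩
  exacts [(mem_powL.1 hD).2, (mem_powL.1 hD).1]

include hX hτ hx hf h1 in
/-- A play of constructible moves, itself not necessarily constructible, is still won. -/
lemma win (h2 : ∀ A y : ℕ → ZFSet.{u}, runSet A ∈ L → (∀ k, Legal L X τ x (A k)) →
      (∀ n, pair (seqSet A (n + 1)) (y n) ∈ f) → InCl τ x (range y))
    (A : ℕ → ZFSet.{u}) (hA : ∀ k, Legal L X τ x (A k)) {W : ZFSet.{u}} (hW : W ∈ τ)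
    (hxW : x ∈ W) : ∃ n, app f (seqSet A (n + 1)) ∈ W := by
  by_contra hc
  push Not at hc
  let P : ZFSet.{u} := bun om fun a => img (fun C => pair a C) (powL X)
  have hP : P ∈ L := Tm.closed (Tm.bun (F := fun a _ => img (fun C => pair a C) (powL X))
    (.const om_mem_L) (Tm.img (F := fun C w => pair (w 0) C) (Tm.const hX).powL
      ((Tm.var 1).pair (.var 0))))
  let B : ZFSet.{u} := powL P
  have hB : B ∈ L := Tm.closed (Tm.const hP).powL
  let R : ZFSet.{u} := bun B fun s => img (fun C => pair s (ext s C))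
    ((powL X).sep fun C => InCl τ x C ∧ app f (ext s C) ∉ W)
  have hR : R ∈ L := Tm.closed (Tm.bun (F := fun s _ => img (fun C => pair s (ext s C))
      ((powL X).sep fun C => InCl τ x C ∧ app f (ext s C) ∉ W)) (.const hB)
    (Tm.img (F := fun C w => pair (w 0) (ext (w 0) C))
      (Tm.sep (P := fun C w => InCl τ x C ∧ app f (ext (w 0) C) ∉ W) (Tm.const hX).powL
        ((dfn_InCl hτ hx (.var 0)).and
          (Dfn.mem' ((Tm.const hf).app (tm_ext (.var 1) (.var 0))) (.const (L_trans hτ hW))).not))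
      ((Tm.var 1).pair (tm_ext (.var 1) (.var 0)))))
  have hs : ∀ n, seqSet A n ∈ B := fun n => mem_powL.2 ⟨fun p hp => by
      obtain ⟨k, -, rfl⟩ := mem_seqSet.1 hp
      exact mem_bun.2 ⟨_, nat_mem_om k, mem_img.2 ⟨_, mem_powL.2 ⟨(hA k).2.1, (hA k).1⟩, rfl⟩⟩,
    seqSet_mem_L fun k _ => (hA k).1⟩
  obtain ⟨t, ht0, ht, hg⟩ := branch_L hB hR (seqSet A) hs (fun n => mem_bun.2 ⟨_, hs n,
    mem_img.2 ⟨A n, mem_sep.2 ⟨mem_powL.2 ⟨(hA n).2.1, (hA n).1⟩, (hA n).2.2, by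
      rw [ext_seqSet]; exact hc n⟩, by rw [ext_seqSet]⟩⟩)
  have hD : ∀ n, ∃ C, Legal L X τ x C ∧ t (n + 1) = ext (t n) C ∧ app f (t (n + 1)) ∉ W := by
    intro n
    obtain ⟨s, -, h⟩ := mem_bun.1 (ht n)
    obtain ⟨C, hC, e⟩ := mem_img.1 h
    obtain ⟨rfl, e2⟩ := pair_inj.1 e
    obtain ⟨h3, h4, h5⟩ := mem_sep.1 hC
    exact ⟨C, ⟨(mem_powL.1 h3).2, (mem_powL.1 h3).1, h4⟩, e2.symm, e2 ▸ h5⟩
  choose D hD1 hD2 hD3 using hD
  have htD : ∀ n, t n = seqSet D n := by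
    intro n
    induction n with
    | zero => rw [ht0, seqSet_zero, seqSet_zero]
    | succ n ih => rw [hD2, ih, ext_seqSet]
  have hrun : runSet D = bun om fun a => app (graphSeq t) a := by
    ext p
    simp only [runSet, mem_range, mem_bun, mem_om]
    constructor
    · rintro ⟨k, rfl⟩
      exact ⟨_, ⟨k + 1, rfl⟩, by
        rw [app_graphSeq, htD]; exact mem_seqSet.2 ⟨k, by omega, rfl⟩⟩
    · rintro ⟨_, ⟨n, rfl⟩, hp⟩
      rw [app_graphSeq, htD] at hp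
      obtain ⟨k, -, rfl⟩ := mem_seqSet.1 hp
      exact ⟨k, rfl⟩
  have hrunL : runSet D ∈ L := hrun ▸ Tm.closed (Tm.bun (F := fun a _ => app (graphSeq t) a)
    (.const om_mem_L) ((Tm.const hg).app (.var 0)))
  obtain ⟨y, hy1, hy2⟩ := h2 D (fun n => app f (seqSet D (n + 1))) hrunL hD1 (fun n => by
    obtain ⟨y, -, h3, h4⟩ := h1 D n fun k _ => hD1 k
    rwa [app_eq h3 h4]) W hW hxW
  obtain ⟨n, rfl⟩ := mem_range.1 hy2
  exact hD3 n (htD _ ▸ hy1)

end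

/-- The simulated move of player I in `L`. -/
noncomputable def nxt (X τ x f s B : ZFSet.{u}) : ZFSet.{u} :=
  Classical.epsilon fun C => Legal L X τ x C ∧ app f (ext s C) ∈ B

/-- The simulated position in `L`. -/
noncomputable def pos (X τ x f : ZFSet.{u}) (B : ℕ → ZFSet.{u}) : ℕ → ZFSet.{u}
  | 0 => ∅
  | n + 1 => ext (pos X τ x f B n) (nxt X τ x f (pos X τ x f B n) (B n))

lemma pos_eq (X τ x f : ZFSet.{u}) (B : ℕ → ZFSet.{u}) (n : ℕ) :
    pos X τ x f B n = seqSet (fun k => nxt X τ x f (pos X τ x f B k) (B k)) n := by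
  induction n with
  | zero => rw [seqSet_zero, pos]
  | succ n ih => rw [← ext_seqSet, ← ih, pos]

lemma pos_congr (X τ x f : ZFSet.{u}) {A B : ℕ → ZFSet.{u}} :
    ∀ {n : ℕ}, (∀ k < n, A k = B k) → pos X τ x f A n = pos X τ x f B n
  | 0, _ => rfl
  | n + 1, h => by
    rw [pos, pos, pos_congr X τ x f (fun k hk => h k (by omega)), h n (by omega)]

theorem result (X τ x : ZFSet.{u}) (hX : X ∈ L) (hτ : τ ∈ L) (htop : IsTop L X τ) (hx : x ∈ X)
    (h : IIWins L X τ x) : IIWins Set.univ X (genTop X τ) x := by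
  obtain ⟨f, hf, h1, h2⟩ := h
  have hxL := L_trans hX hx
  have hsub := htop.1
  have hcl : ∀ {A}, InCl (genTop X τ) x A → InCl τ x A := fun H U hU =>
    H U (mem_sep.2 ⟨mem_powerset.2 (hsub U hU), fun y hy => ⟨U, hU, hy, subset_rfl⟩⟩)
  have key : ∀ (B : ℕ → ZFSet.{u}) (n : ℕ), (∀ k ≤ n, Legal Set.univ X (genTop X τ) x (B k)) →
      Legal L X τ x (nxt X τ x f (pos X τ x f B n) (B n)) ∧
        app f (pos X τ x f B (n + 1)) ∈ B n := by
    intro B n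
    induction n using Nat.strong_induction_on with
    | h n ih =>
      intro hB
      obtain ⟨W, hW, hxW, H⟩ := nbhd hX hτ hxL hf hsub h1
        (fun k => nxt X τ x f (pos X τ x f B k) (B k)) n
        (fun k hk => (ih k hk fun j hj => hB j (by omega)).1)
      obtain ⟨y, hyW, hyB⟩ := hcl (hB n le_rfl).2.2 W hW hxW
      obtain ⟨C, hC, e⟩ := H y hyW
      rw [← pos_eq] at e
      exact Classical.epsilon_spec (p := fun C => Legal L X τ x C ∧
        app f (ext (pos X τ x f B n) C) ∈ B n) ⟨C, hC, e ▸ hyB⟩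
  let g : ZFSet.{u} := (ZFSet.prod (powerset (ZFSet.prod om (powerset X))) X).sep fun p =>
    ∃ (B : ℕ → ZFSet.{u}) (n : ℕ), p = pair (seqSet B (n + 1)) (app f (pos X τ x f B (n + 1)))
  have hg : ∀ (B : ℕ → ZFSet.{u}) (n : ℕ) (z : ZFSet.{u}), pair (seqSet B (n + 1)) z ∈ g →
      z = app f (pos X τ x f B (n + 1)) := by
    intro B n z hz
    obtain ⟨-, B', m, e⟩ := mem_sep.1 hz
    obtain ⟨e1, rfl⟩ := pair_inj.1 e
    obtain ⟨e2, e3⟩ := seqSet_inj e1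
    rw [← e2, pos_congr X τ x f e3]
  refine ⟨g, trivial, fun B n hB => ⟨_, (key B n hB).2, mem_sep.2 ⟨?_, B, n, rfl⟩, hg B n⟩, ?_⟩
  · refine pair_mem_prod.2 ⟨mem_powerset.2 fun p hp => ?_, (hB n le_rfl).2.1 (key B n hB).2⟩
    obtain ⟨k, hk, rfl⟩ := mem_seqSet.1 hp
    exact pair_mem_prod.2 ⟨nat_mem_om k, mem_powerset.2 (hB k (by omega)).2.1⟩
  · intro B y _ hB hy U hU hxU
    obtain ⟨W, hW, hxW, hWU⟩ := (mem_sep.1 hU).2 x hxU
    obtain ⟨n, hn⟩ := win hX hτ hxL hf h1 h2 (fun k => nxt X τ x f (pos X τ x f B k) (B k))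
      (fun k => (key B k fun j _ => hB j).1) hW hxW
    rw [← pos_eq, ← hg B n _ (hy n)] at hn
    exact ⟨y n, hWU hn, mem_range.2 ⟨n, rfl⟩⟩

end Pool.Agent.Results.MP_cb406a_lc.FanTightness
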